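import Mathlib

/-!
# Definitions: quaternion systems `A_ℓ x^(ℓ) + ... + A_1 x' + A_0 x = 0`

Vectors are functions into the quaternions `ℍ`, matrices act on them from the left, and scalars act
from the right.  The coefficients are given by `A : ℕ → Matrix (Fin n) (Fin n) ℍ`, of which only
`A 0, ..., A ℓ` matter.
-/

set_option autoImplicit false

open scoped Quaternion Matrix

namespace Pool.Agent.Lib.MP_9437d9_an

/-- The coefficients `A 0, ..., A ℓ` are of the required form: `A k` is hermitian for odd `k`,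
skewhermitian for even `k`, and `A ℓ` is invertible. -/
def IsStructured (ℓ n : ℕ) (A : ℕ → Matrix (Fin n) (Fin n) ℍ) : Prop :=
  (∀ k ≤ ℓ, Odd k → (A k)ᴴ = A k) ∧ (∀ k ≤ ℓ, Even k → (A k)ᴴ = -(A k)) ∧ IsUnit (A ℓ)

/-- `x` is an `ℓ` times continuously differentiable solution on `ℝ` of
`A_ℓ x^(ℓ)(t) + ... + A_1 x'(t) + A_0 x(t) = 0`. -/
def IsSolution (ℓ n : ℕ) (A : ℕ → Matrix (Fin n) (Fin n) ℍ) (x : ℝ → Fin n → ℍ) : Prop :=
  ContDiff ℝ ℓ x ∧ ∀ t : ℝ, ∑ k ∈ Finset.range (ℓ + 1), A k *ᵥ iteratedDeriv k x t = 0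

/-- The system is bounded: every solution is bounded on `ℝ`. -/
def IsBoundedSystem (ℓ n : ℕ) (A : ℕ → Matrix (Fin n) (Fin n) ℍ) : Prop :=
  ∀ x : ℝ → Fin n → ℍ, IsSolution ℓ n A x → ∃ K : ℝ, ∀ t : ℝ, ‖x t‖ ≤ K

/-- The system is stably bounded: all systems of the same form with coefficients close to those of
`A` are bounded. -/
def IsStablyBounded (ℓ n : ℕ) (A : ℕ → Matrix (Fin n) (Fin n) ℍ) : Prop :=
  ∃ ε : ℝ, 0 < ε ∧ ∀ A' : ℕ → Matrix (Fin n) (Fin n) ℍ, IsStructured ℓ n A' →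
    (∀ k ≤ ℓ, ∀ i j, ‖A' k i j - A k i j‖ < ε) → IsBoundedSystem ℓ n A'

/-- The block companion matrix `C`: identity blocks on the block superdiagonal, last block row
`(-A_ℓ⁻¹ A_0, ..., -A_ℓ⁻¹ A_{ℓ-1})`, zeros elsewhere. -/
noncomputable def companion (ℓ n : ℕ) (A : ℕ → Matrix (Fin n) (Fin n) ℍ) :
    Matrix (Fin ℓ × Fin n) (Fin ℓ × Fin n) ℍ := fun p q =>
  if (p.1 : ℕ) + 1 < ℓ then (if (q.1 : ℕ) = (p.1 : ℕ) + 1 ∧ q.2 = p.2 then 1 else 0)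
  else -(Ring.inverse (A ℓ) * A (q.1 : ℕ)) p.2 q.2

/-- The block matrix `G`; with block indices `i, j` starting from `0` its `(i,j)` block is
`(-1)^i A_{i+j+1}` if `i + j + 1 ≤ ℓ` and `0` otherwise. -/
noncomputable def gram (ℓ n : ℕ) (A : ℕ → Matrix (Fin n) (Fin n) ℍ) :
    Matrix (Fin ℓ × Fin n) (Fin ℓ × Fin n) ℍ := fun p q =>
  if (p.1 : ℕ) + (q.1 : ℕ) + 1 ≤ ℓ then
    (-1) ^ (p.1 : ℕ) * A ((p.1 : ℕ) + (q.1 : ℕ) + 1) p.2 q.2 else 0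

/-- `μ` is a (right) eigenvalue of `C`. -/
def IsEigenvalue {ι : Type} [Fintype ι] (C : Matrix ι ι ℍ) (μ : ℍ) : Prop :=
  ∃ x : ι → ℍ, x ≠ 0 ∧ C *ᵥ x = fun i => x i * μ

open Classical in
/-- The root subspace of `C` at `μ` (with exponent `N`, the size of `C`):
`ker (C - μ I)^N` if `μ` is real, and `ker (C² - 2 Re(μ) C + |μ|² I)^N` otherwise. -/
noncomputable def rootSubspace {ι : Type} [Fintype ι] [DecidableEq ι] (C : Matrix ι ι ℍ) (N : ℕ)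
    (μ : ℍ) : Set (ι → ℍ) :=
  if μ = (μ.re : ℍ) then {x | ((C - μ.re • (1 : Matrix ι ι ℍ)) ^ N) *ᵥ x = 0}
  else {x | ((C ^ 2 - (2 * μ.re) • C + (‖μ‖ ^ 2) • (1 : Matrix ι ι ℍ)) ^ N) *ᵥ x = 0}

/-- A set `M` of vectors is `G`-positive: `x* G x > 0` (a positive real number) for all nonzero
`x ∈ M`. -/
def IsPositiveOn {ι : Type} [Fintype ι] (G : Matrix ι ι ℍ) (M : Set (ι → ℍ)) : Prop :=
  ∀ x ∈ M, x ≠ 0 → ∃ r : ℝ, 0 < r ∧ star x ⬝ᵥ (G *ᵥ x) = (r : ℍ)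

/-- A set `M` of vectors is `G`-negative: `x* G x < 0` (a negative real number) for all nonzero
`x ∈ M`. -/
def IsNegativeOn {ι : Type} [Fintype ι] (G : Matrix ι ι ℍ) (M : Set (ι → ℍ)) : Prop :=
  ∀ x ∈ M, x ≠ 0 → ∃ r : ℝ, r < 0 ∧ star x ⬝ᵥ (G *ᵥ x) = (r : ℍ)

end Pool.Agent.Lib.MP_9437d9_an
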