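import Mathlib
import Pool.Agent.Lib.MP_9437d9_an.Defs

set_option autoImplicit false

open scoped Quaternion Matrix Topology
open Filter

namespace Pool.Agent.Lib.MP_9437d9_an

section Basics

variable {ι : Type} [Fintype ι]

/-- right multiplication of a vector by a scalar -/
noncomputable def rs (v : ι → ℍ) (c : ℍ) : ι → ℍ := fun i => v i * c

omit [Fintype ι] in
lemma rs_apply (v : ι → ℍ) (c : ℍ) (i : ι) : rs v c i = v i * c := rfl

lemma mulVec_rs (M : Matrix ι ι ℍ) (v : ι → ℍ) (c : ℍ) : M *ᵥ rs v c = rs (M *ᵥ v) c := by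
  ext1 i
  simp only [Matrix.mulVec, dotProduct, rs, Finset.sum_mul, mul_assoc]

lemma dot_rs (u v : ι → ℍ) (c : ℍ) : u ⬝ᵥ rs v c = (u ⬝ᵥ v) * c := by
  simp only [dotProduct, rs, Finset.sum_mul, mul_assoc]

lemma star_rs_dot (u v : ι → ℍ) (c : ℍ) : star (rs u c) ⬝ᵥ v = star c * (star u ⬝ᵥ v) := by
  simp only [dotProduct, rs, Pi.star_apply, star_mul, Finset.mul_sum, mul_assoc]

lemma re_mul_comm (a b : ℍ) : (a * b).re = (b * a).re := by
  simp only [Quaternion.re_mul]; ring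

lemma vecMulVec_mulVec' (a b x : ι → ℍ) : Matrix.vecMulVec a b *ᵥ x = rs a (b ⬝ᵥ x) := by
  ext1 i
  simp only [Matrix.mulVec, dotProduct, rs, Matrix.vecMulVec_apply, Finset.mul_sum, mul_assoc]

end Basics

section Companion

variable {ℓ n : ℕ} {A : ℕ → Matrix (Fin n) (Fin n) ℍ}

lemma companion_mulVec_shift (v : Fin ℓ × Fin n → ℍ) {j : ℕ} (hj : j + 1 < ℓ) (i : Fin n) :
    (companion ℓ n A *ᵥ v) (⟨j, by omega⟩, i) = v (⟨j + 1, hj⟩, i) := by
  simp only [Matrix.mulVec, dotProduct, companion]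
  rw [Finset.sum_eq_single ((⟨j + 1, hj⟩ : Fin ℓ), i)]
  · simp [hj]
  · rintro ⟨a, b⟩ - hab
    rw [if_pos (by simpa using hj)]
    rw [if_neg, zero_mul]
    rintro ⟨h1, h2⟩
    apply hab
    ext
    · simpa using h1
    · simpa using h2 ▸ rfl
  · intro h; exact absurd (Finset.mem_univ _) h

lemma companion_mulVec_last (v : Fin ℓ × Fin n → ℍ) {j : ℕ} (hj : j + 1 = ℓ) (i : Fin n) :
    (companion ℓ n A *ᵥ v) (⟨j, by omega⟩, i) =
      -(Ring.inverse (A ℓ) *ᵥ (∑ k : Fin ℓ, A k *ᵥ (fun s => v (k, s)))) i := by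
  simp only [Matrix.mulVec_sum, Matrix.mulVec_mulVec]
  simp only [Matrix.mulVec, dotProduct, companion, Finset.sum_apply]
  rw [Fintype.sum_prod_type, ← Finset.sum_neg_distrib]
  refine Finset.sum_congr rfl fun k _ => ?_
  rw [← Finset.sum_neg_distrib]
  refine Finset.sum_congr rfl fun s _ => ?_
  rw [if_neg (by simp; omega)]
  simp

/-- if the last row equation holds -/
lemma last_row (hu : IsUnit (A ℓ)) {j : ℕ} (hj : j + 1 = ℓ) (v : Fin ℓ × Fin n → ℍ)
    (b : Fin n → ℍ) (hb : ∀ i, (companion ℓ n A *ᵥ v) (⟨j, by omega⟩, i) = b i) :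
    ∑ k : Fin ℓ, A k *ᵥ (fun s => v (k, s)) + A ℓ *ᵥ b = 0 := by
  have h1 : b = -(Ring.inverse (A ℓ) *ᵥ (∑ k : Fin ℓ, A k *ᵥ (fun s => v (k, s)))) := by
    ext1 i
    rw [← hb i, companion_mulVec_last v hj]; rfl
  rw [h1, Matrix.mulVec_neg, Matrix.mulVec_mulVec, Ring.mul_inverse_cancel _ hu, Matrix.one_mulVec]
  abel

end Companion

section Flow

variable {ℓ n : ℕ} {A : ℕ → Matrix (Fin n) (Fin n) ℍ}

/-- block `j` of a flow -/
lemma flow_iteratedDeriv (hℓ : 0 < ℓ) (X : ℝ → (Fin ℓ × Fin n → ℍ))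
    (hX : ∀ t, HasDerivAt X (companion ℓ n A *ᵥ X t) t) :
    ∀ j : ℕ, ∀ hj : j < ℓ, iteratedDeriv j (fun t i => X t (⟨0, hℓ⟩, i)) =
      fun t i => X t (⟨j, hj⟩, i) := by
  intro j
  induction j with
  | zero => intro hj; simp
  | succ j ih =>
    intro hj
    rw [iteratedDeriv_succ, ih (by omega)]
    ext1 t
    have h : HasDerivAt (fun t i => X t ((⟨j, by omega⟩ : Fin ℓ), i))
        (fun i => (companion ℓ n A *ᵥ X t) (⟨j, by omega⟩, i)) t := by
      rw [hasDerivAt_pi]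
      intro i
      exact (hasDerivAt_pi.1 (hX t)) (⟨j, by omega⟩, i)
    rw [h.deriv]
    ext1 i
    exact companion_mulVec_shift (X t) hj i

lemma flow_isSolution (hℓ : 0 < ℓ) (hu : IsUnit (A ℓ)) (X : ℝ → (Fin ℓ × Fin n → ℍ))
    (hX : ∀ t, HasDerivAt X (companion ℓ n A *ᵥ X t) t) :
    IsSolution ℓ n A (fun t i => X t (⟨0, hℓ⟩, i)) := by
  obtain ⟨m, rfl⟩ : ∃ m, ℓ = m + 1 := ⟨ℓ - 1, by omega⟩
  have hdiffX : Differentiable ℝ X := fun t => (hX t).differentiableAt
  have hblock := flow_iteratedDeriv hℓ X hX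
  -- derivative of the last block
  have hlast : ∀ t, HasDerivAt (fun t i => X t ((⟨m, by omega⟩ : Fin (m + 1)), i))
        (fun i => (companion (m + 1) n A *ᵥ X t) (⟨m, by omega⟩, i)) t := by
    intro t
    rw [hasDerivAt_pi]
    intro i
    exact (hasDerivAt_pi.1 (hX t)) (⟨m, by omega⟩, i)
  have htop : iteratedDeriv (m + 1) (fun t i => X t (⟨0, hℓ⟩, i)) =
      fun t i => (companion (m + 1) n A *ᵥ X t) (⟨m, by omega⟩, i) := by
    rw [iteratedDeriv_succ, hblock m (by omega)]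
    ext1 t
    exact (hlast t).deriv
  constructor
  · apply contDiff_of_differentiable_iteratedDeriv
    intro k hk
    have hk' : k ≤ m + 1 := by exact_mod_cast hk
    rcases Nat.lt_or_ge k (m + 1) with h | h
    · rw [hblock k h]
      refine differentiable_pi.2 fun i => ?_
      exact (differentiable_pi.1 hdiffX) (⟨k, h⟩, i)
    · obtain rfl : k = m + 1 := le_antisymm hk' h
      rw [htop]
      refine differentiable_pi.2 fun i => ?_
      simp only [Matrix.mulVec, dotProduct]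
      refine Differentiable.fun_sum fun p _ => ?_
      exact (differentiable_const _).mul ((differentiable_pi.1 hdiffX) p)
  · intro t
    rw [Finset.sum_range_succ, htop]
    rw [← Fin.sum_univ_eq_sum_range (fun k => A k *ᵥ iteratedDeriv k
      (fun t i => X t ((⟨0, hℓ⟩ : Fin (m + 1)), i)) t) (m + 1)]
    have h1 : ∀ k : Fin (m + 1), iteratedDeriv (k : ℕ)
        (fun t i => X t ((⟨0, hℓ⟩ : Fin (m + 1)), i)) t = fun s => X t (k, s) := by
      intro k
      rw [hblock k k.2]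
    simp_rw [h1]
    exact last_row hu rfl (X t) _ (fun i => rfl)

/-- an eigenvector of the companion matrix is determined by its first block -/
lemma eigen_first_block (hℓ : 0 < ℓ) {w : Fin ℓ × Fin n → ℍ} {μ : ℍ}
    (hw : companion ℓ n A *ᵥ w = rs w μ) :
    ∀ j : ℕ, ∀ hj : j < ℓ, ∀ i, w (⟨j, hj⟩, i) = w (⟨0, hℓ⟩, i) * μ ^ j := by
  intro j
  induction j with
  | zero => intro hj i; simp
  | succ j ih =>
    intro hj i
    have h := companion_mulVec_shift (A := A) w hj i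
    rw [hw, rs_apply, ih (by omega) i] at h
    rw [← h, pow_succ, mul_assoc]

end Flow

section Bounded

variable {ℓ n : ℕ} {A : ℕ → Matrix (Fin n) (Fin n) ℍ}

lemma flow_bounded (hℓ : 0 < ℓ) (hu : IsUnit (A ℓ)) (hB : IsBoundedSystem ℓ n A)
    (X : ℝ → (Fin ℓ × Fin n → ℍ)) (hX : ∀ t, HasDerivAt X (companion ℓ n A *ᵥ X t) t) :
    ∃ K : ℝ, ∀ t i, ‖X t (⟨0, hℓ⟩, i)‖ ≤ K := by
  obtain ⟨K, hK⟩ := hB _ (flow_isSolution hℓ hu X hX)
  exact ⟨K, fun t i => (norm_le_pi_norm (fun i => X t (⟨0, hℓ⟩, i)) i).trans (hK t)⟩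

lemma eigen_ne_zero (hℓ : 0 < ℓ) {w : Fin ℓ × Fin n → ℍ} {μ : ℍ}
    (hw : companion ℓ n A *ᵥ w = rs w μ) (hw0 : w ≠ 0) : ∃ i, w (⟨0, hℓ⟩, i) ≠ 0 := by
  by_contra hcon
  push Not at hcon
  apply hw0
  ext1 p
  have h := eigen_first_block hℓ hw p.1 p.1.2 p.2
  rw [hcon, zero_mul] at h
  simpa using h

lemma bounded_re_zero (hℓ : 0 < ℓ) (hu : IsUnit (A ℓ)) (hB : IsBoundedSystem ℓ n A)
    {w : Fin ℓ × Fin n → ℍ} {μ : ℍ}
    (hw : companion ℓ n A *ᵥ w = rs w μ) (hw0 : w ≠ 0) : μ.re = 0 := by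
  by_contra hμ
  obtain ⟨i, hi⟩ := eigen_ne_zero hℓ hw hw0
  have hX : ∀ t : ℝ, HasDerivAt (fun t : ℝ => rs w (NormedSpace.exp (t • μ)))
      (companion ℓ n A *ᵥ rs w (NormedSpace.exp (t • μ))) t := by
    intro t
    rw [mulVec_rs, hw, hasDerivAt_pi]
    intro p
    have h := (hasDerivAt_exp_smul_const' μ t).const_mul (w p)
    simp only [rs]
    rw [mul_assoc]
    exact h
  obtain ⟨K, hK⟩ := flow_bounded hℓ hu hB _ hX
  have hpos : 0 < ‖w (⟨0, hℓ⟩, i)‖ := norm_pos_iff.2 hi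
  have h1 := hK ((K / ‖w (⟨0, hℓ⟩, i)‖) / μ.re) i
  rw [rs_apply, norm_mul, Quaternion.norm_exp] at h1
  have h2 : (((K / ‖w (⟨0, hℓ⟩, i)‖) / μ.re) • μ).re = K / ‖w (⟨0, hℓ⟩, i)‖ := by
    rw [Quaternion.re_smul, smul_eq_mul, div_mul_cancel₀ _ hμ]
  rw [h2, ← Real.exp_eq_exp_ℝ, Real.norm_of_nonneg (Real.exp_pos _).le] at h1
  have h3 := Real.add_one_le_exp (K / ‖w (⟨0, hℓ⟩, i)‖)
  have h4 : ‖w (⟨0, hℓ⟩, i)‖ * (K / ‖w (⟨0, hℓ⟩, i)‖ + 1) ≤ K :=
    (mul_le_mul_of_nonneg_left h3 hpos.le).trans h1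
  rw [mul_add, mul_div_cancel₀ _ hpos.ne', mul_one] at h4
  linarith

lemma lin_growth {v : ℍ} {a b K : ℝ} (ha : 0 < a) (h : ∀ m : ℕ, ‖(a * m + b) • v‖ ≤ K) :
    v = 0 := by
  by_contra hv
  have hpos : 0 < ‖v‖ := norm_pos_iff.2 hv
  obtain ⟨m, hm⟩ := exists_nat_gt ((K / ‖v‖ - b) / a)
  have h1 := h m
  rw [norm_smul, Real.norm_eq_abs] at h1
  have h2 : K / ‖v‖ < a * m + b := by
    rw [div_lt_iff₀ ha] at hm
    linarith
  have h3 : K < (a * m + b) * ‖v‖ := by
    rwa [div_lt_iff₀ hpos] at h2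
  have h4 : (a * m + b) * ‖v‖ ≤ |a * m + b| * ‖v‖ :=
    mul_le_mul_of_nonneg_right (le_abs_self _) hpos.le
  linarith

/-- no Jordan blocks at `0` -/
lemma ker_zero (hℓ : 0 < ℓ) (hu : IsUnit (A ℓ)) (hB : IsBoundedSystem ℓ n A)
    (y : Fin ℓ × Fin n → ℍ)
    (hy : companion ℓ n A *ᵥ (companion ℓ n A *ᵥ y) = 0) : companion ℓ n A *ᵥ y = 0 := by
  set z := companion ℓ n A *ᵥ y with hz
  have hX : ∀ t : ℝ, HasDerivAt (fun t : ℝ => y + t • z)
      (companion ℓ n A *ᵥ (y + t • z)) t := by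
    intro t
    rw [Matrix.mulVec_add, Matrix.mulVec_smul, hy, smul_zero, add_zero, ← hz]
    simpa using ((hasDerivAt_id t).smul_const z).const_add y
  obtain ⟨K, hK⟩ := flow_bounded hℓ hu hB _ hX
  have h0 : ∀ i, z (⟨0, hℓ⟩, i) = 0 := by
    intro i
    refine lin_growth (a := 1) (b := 0) (K := K + ‖y (⟨0, hℓ⟩, i)‖) one_pos fun m => ?_
    have h1 := hK m i
    simp only [Pi.add_apply, Pi.smul_apply] at h1
    have h2 : ((1 * (m : ℝ) + 0) • z (⟨0, hℓ⟩, i)) =
        (y (⟨0, hℓ⟩, i) + (m : ℝ) • z (⟨0, hℓ⟩, i)) - y (⟨0, hℓ⟩, i) := by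
      rw [one_mul, add_zero]; abel
    rw [h2]
    exact (norm_sub_le _ _).trans (by linarith)
  have hw : companion ℓ n A *ᵥ z = rs z 0 := by
    rw [hy]; ext1 p; simp [rs]
  ext1 p
  have h := eigen_first_block hℓ hw p.1 p.1.2 p.2
  rw [h0, zero_mul] at h
  simpa using h

/-- no Jordan blocks at `± iω` -/
lemma ker_omega (hℓ : 0 < ℓ) (hu : IsUnit (A ℓ)) (hB : IsBoundedSystem ℓ n A) {ω : ℝ}
    (hω : 0 < ω) (y z : Fin ℓ × Fin n → ℍ)
    (hyz : companion ℓ n A *ᵥ (companion ℓ n A *ᵥ y) = z - ω ^ 2 • y)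
    (hz : companion ℓ n A *ᵥ (companion ℓ n A *ᵥ z) = - (ω ^ 2 • z)) : z = 0 := by
  set C := companion ℓ n A with hC
  set a : ℝ → ℝ := fun t => t * Real.sin (ω * t) / (2 * ω) with ha
  set b : ℝ → ℝ := fun t => (Real.sin (ω * t) - ω * t * Real.cos (ω * t)) / (2 * ω ^ 3) with hb
  have hsin : ∀ t, HasDerivAt (fun t => Real.sin (ω * t)) (ω * Real.cos (ω * t)) t := by
    intro t
    have h0 : HasDerivAt (fun t : ℝ => ω * t) ω t := by
      simpa using (hasDerivAt_id t).const_mul ω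
    exact h0.sin.congr_deriv (mul_comm _ _)
  have hcos : ∀ t, HasDerivAt (fun t => Real.cos (ω * t)) (-(ω * Real.sin (ω * t))) t := by
    intro t
    have h0 : HasDerivAt (fun t : ℝ => ω * t) ω t := by
      simpa using (hasDerivAt_id t).const_mul ω
    exact h0.cos.congr_deriv (by ring)
  have ha' : ∀ t, HasDerivAt a ((Real.sin (ω * t) + t * (ω * Real.cos (ω * t))) / (2 * ω)) t := by
    intro t
    have := ((hasDerivAt_id t).mul (hsin t)).div_const (2 * ω)
    simpa using this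
  have hb' : ∀ t, HasDerivAt b (a t) t := by
    intro t
    have h1 := ((hsin t).sub (((hasDerivAt_id t).const_mul ω).mul (hcos t))).div_const (2 * ω ^ 3)
    refine h1.congr_deriv ?_
    simp only [ha, id]
    field_simp
    ring
  have hX : ∀ t : ℝ, HasDerivAt (fun t : ℝ => Real.cos (ω * t) • y +
      (Real.sin (ω * t) / ω) • (C *ᵥ y) + a t • z + b t • (C *ᵥ z))
      (C *ᵥ (Real.cos (ω * t) • y +
      (Real.sin (ω * t) / ω) • (C *ᵥ y) + a t • z + b t • (C *ᵥ z))) t := by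
    intro t
    have h1 := ((((hcos t).smul_const y).add (((hsin t).div_const ω).smul_const (C *ᵥ y))).add
      ((ha' t).smul_const z)).add ((hb' t).smul_const (C *ᵥ z))
    refine h1.congr_deriv ?_
    rw [Matrix.mulVec_add, Matrix.mulVec_add, Matrix.mulVec_add, Matrix.mulVec_smul,
      Matrix.mulVec_smul, Matrix.mulVec_smul, Matrix.mulVec_smul, hyz, hz]
    have e1 : ω * Real.cos (ω * t) / ω = Real.cos (ω * t) := by field_simp
    have e2 : (Real.sin (ω * t) + t * (ω * Real.cos (ω * t))) / (2 * ω) =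
        Real.sin (ω * t) / ω - b t * ω ^ 2 := by
      simp only [hb]; field_simp; ring
    have e3 : -(ω * Real.sin (ω * t)) = -(Real.sin (ω * t) / ω * ω ^ 2) := by
      field_simp
    rw [e1, e2, e3, smul_sub, smul_neg, sub_smul, neg_smul, smul_smul, smul_smul]
    abel
  obtain ⟨K, hK⟩ := flow_bounded hℓ hu hB _ hX
  have hpi := Real.pi_pos
  -- value at `2πm/ω`
  have hCz0 : ∀ i, (C *ᵥ z) (⟨0, hℓ⟩, i) = 0 := by
    intro i
    refine lin_growth (a := Real.pi / ω ^ 3) (b := 0) (K := K + ‖y (⟨0, hℓ⟩, i)‖)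
      (by positivity) fun m => ?_
    have h1 := hK (2 * Real.pi * m / ω) i
    have e0 : ω * (2 * Real.pi * m / ω) = m * (2 * Real.pi) := by field_simp
    simp only [Pi.add_apply, Pi.smul_apply, ha, hb, e0, Real.cos_nat_mul_two_pi] at h1
    have es : Real.sin (m * (2 * Real.pi)) = 0 := by
      have := Real.sin_nat_mul_pi (m * 2)
      push_cast at this
      rw [← this]; congr 1; ring
    rw [es] at h1
    have e3 : ((0 : ℝ) - m * (2 * Real.pi) * 1) / (2 * ω ^ 3) = -(Real.pi / ω ^ 3 * m + 0) := by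
      field_simp; ring
    rw [e3] at h1
    have h2 : (Real.pi / ω ^ 3 * (m : ℝ) + 0) • (C *ᵥ z) (⟨0, hℓ⟩, i) =
        y (⟨0, hℓ⟩, i) - ((1 : ℝ) • y (⟨0, hℓ⟩, i) + ((0 : ℝ) / ω) • (C *ᵥ y) (⟨0, hℓ⟩, i) +
        (2 * Real.pi * (m : ℝ) / ω * 0 / (2 * ω)) • z (⟨0, hℓ⟩, i) +
        (-(Real.pi / ω ^ 3 * (m : ℝ) + 0)) • (C *ᵥ z) (⟨0, hℓ⟩, i)) := by
      rw [zero_div, zero_smul, mul_zero, zero_div, zero_smul, one_smul, neg_smul]
      abel
    rw [h2]
    exact (norm_sub_le _ _).trans (by linarith)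
  -- value at `(2πm + π/2)/ω`
  have hz0 : ∀ i, z (⟨0, hℓ⟩, i) = 0 := by
    intro i
    refine lin_growth (a := Real.pi / ω ^ 2) (b := Real.pi / (4 * ω ^ 2))
      (K := K + ‖(1 / ω : ℝ) • (C *ᵥ y) (⟨0, hℓ⟩, i)‖)
      (by positivity) fun m => ?_
    have h1 := hK ((m * (2 * Real.pi) + Real.pi / 2) / ω) i
    have e0 : ω * ((m * (2 * Real.pi) + Real.pi / 2) / ω) = m * (2 * Real.pi) + Real.pi / 2 := by
      field_simp
    have es : Real.sin (m * (2 * Real.pi)) = 0 := by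
      have := Real.sin_nat_mul_pi (m * 2)
      push_cast at this
      rw [← this]; congr 1; ring
    have ec : Real.cos (m * (2 * Real.pi) + Real.pi / 2) = 0 := by
      rw [Real.cos_add_pi_div_two, es, neg_zero]
    have es' : Real.sin (m * (2 * Real.pi) + Real.pi / 2) = 1 := by
      rw [Real.sin_add_pi_div_two, Real.cos_nat_mul_two_pi]
    simp only [Pi.add_apply, Pi.smul_apply, ha, hb, e0, ec, es', hCz0, smul_zero, add_zero,
      zero_smul, zero_add] at h1
    have e3 : (m * (2 * Real.pi) + Real.pi / 2) / ω * 1 / (2 * ω) =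
        Real.pi / ω ^ 2 * m + Real.pi / (4 * ω ^ 2) := by
      field_simp
      ring
    rw [e3] at h1
    have h2 : (Real.pi / ω ^ 2 * (m : ℝ) + Real.pi / (4 * ω ^ 2)) • z (⟨0, hℓ⟩, i) =
        ((1 / ω : ℝ) • (C *ᵥ y) (⟨0, hℓ⟩, i) +
        (Real.pi / ω ^ 2 * (m : ℝ) + Real.pi / (4 * ω ^ 2)) • z (⟨0, hℓ⟩, i)) -
        (1 / ω : ℝ) • (C *ᵥ y) (⟨0, hℓ⟩, i) := by
      abel
    rw [h2]
    exact (norm_sub_le _ _).trans (by linarith)
  -- all blocks vanish
  have hblocks : ∀ j : ℕ, ∀ hj : j < ℓ, ∀ i, z (⟨j, hj⟩, i) = 0 := by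
    intro j
    induction j using Nat.strong_induction_on with
    | _ j ih =>
      intro hj i
      match j, ih, hj with
      | 0, _, _ => exact hz0 i
      | 1, _, hj =>
        rw [← companion_mulVec_shift (A := A) z hj i]
        exact hCz0 i
      | (k + 2), ih, hj =>
        have h1 := companion_mulVec_shift (A := A) z hj i
        have h2 := companion_mulVec_shift (A := A) (C *ᵥ z) (j := k) (by omega) i
        rw [← h1, ← h2, ← hC, hz]
        simp [ih k (by omega) (by omega) i]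
  ext1 p
  simpa using hblocks p.1 p.1.2 p.2

end Bounded

section UnitsOpen

attribute [local instance] Matrix.linftyOpNormedRing

lemma isOpen_isUnit_matrix' (n : ℕ) : IsOpen {M : Matrix (Fin n) (Fin n) ℍ | IsUnit M} := by
  have h : @CompleteSpace (Matrix (Fin n) (Fin n) ℍ)
      (Matrix.linftyOpNormedRing (n := Fin n) (α := ℍ)).toPseudoMetricSpace.toUniformSpace := by
    exact (inferInstance : CompleteSpace (Fin n → Fin n → ℍ))
  have h2 : HasSummableGeomSeries (Matrix (Fin n) (Fin n) ℍ) := by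
    infer_instance
  exact Units.isOpen

end UnitsOpen

lemma isOpen_isUnit_matrix (n : ℕ) : IsOpen {M : Matrix (Fin n) (Fin n) ℍ | IsUnit M} := by
  exact isOpen_isUnit_matrix' n

section Perturb

variable {ℓ n : ℕ} {A : ℕ → Matrix (Fin n) (Fin n) ℍ}

/-- the squared euclidean norm of a quaternion vector -/
noncomputable def nsq (x : Fin n → ℍ) : ℝ := ∑ i, Quaternion.normSq (x i)

/-- the real part as a continuous linear map -/
noncomputable def reL : ℍ →L[ℝ] ℝ where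
  toFun := fun q => q.re
  map_add' := fun a b => by simp
  map_smul' := fun c a => by simp
  cont := Quaternion.continuous_re

lemma reL_apply (q : ℍ) : reL q = q.re := rfl

lemma re_sum' {κ : Type} (s : Finset κ) (f : κ → ℍ) : (∑ k ∈ s, f k).re = ∑ k ∈ s, (f k).re := by
  have := map_sum reL f s
  simpa only [reL_apply] using this

lemma star_dot_self (x : Fin n → ℍ) : star x ⬝ᵥ x = ((nsq x : ℝ) : ℍ) := by
  have h : ((nsq x : ℝ) : ℍ) = ∑ i, ((Quaternion.normSq (x i) : ℝ) : ℍ) := by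
    rw [nsq, ← Quaternion.algebraMap_def, map_sum]
  rw [h]
  simp only [dotProduct, Pi.star_apply, Quaternion.star_mul_self]

lemma nsq_pos {x : Fin n → ℍ} (hx : x ≠ 0) : 0 < nsq x := by
  obtain ⟨i, hi⟩ := Function.ne_iff.1 hx
  refine Finset.sum_pos' (fun j _ => Quaternion.normSq_nonneg) ⟨i, Finset.mem_univ _, ?_⟩
  exact lt_of_le_of_ne Quaternion.normSq_nonneg (Ne.symm (mt Quaternion.normSq_eq_zero.1 hi))

/-- the vector `(x₀, x₀λ, ..., x₀λ^{ℓ-1})` -/
noncomputable def powVec (ℓ : ℕ) (x0 : Fin n → ℍ) (lam : ℍ) : Fin ℓ × Fin n → ℍ :=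
  fun p => x0 p.2 * lam ^ (p.1 : ℕ)

lemma companion_powVec (hu : IsUnit (A ℓ)) {x0 : Fin n → ℍ} {lam : ℍ}
    (E : ∑ k ∈ Finset.range (ℓ + 1), A k *ᵥ rs x0 (lam ^ k) = 0) :
    companion ℓ n A *ᵥ powVec ℓ x0 lam = rs (powVec ℓ x0 lam) lam := by
  ext1 p
  obtain ⟨⟨j, hj⟩, i⟩ := p
  rcases Nat.lt_or_ge (j + 1) ℓ with h | h
  · rw [companion_mulVec_shift _ h i]
    simp only [powVec, rs, pow_succ, mul_assoc]
  · have hj1 : j + 1 = ℓ := by omega
    rw [companion_mulVec_last _ hj1 i]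
    rw [Finset.sum_range_succ, ← Fin.sum_univ_eq_sum_range (fun k => A k *ᵥ rs x0 (lam ^ k)) ℓ] at E
    have h1 : ∑ k : Fin ℓ, A k *ᵥ (fun s => powVec ℓ x0 lam (k, s)) =
        ∑ k : Fin ℓ, A k *ᵥ rs x0 (lam ^ (k : ℕ)) := rfl
    rw [h1, eq_neg_of_add_eq_zero_left E, Matrix.mulVec_neg, Matrix.mulVec_mulVec,
      Ring.inverse_mul_cancel _ hu, Matrix.one_mulVec, Pi.neg_apply, neg_neg]
    simp only [powVec, rs]
    rw [mul_assoc, ← pow_succ, hj1]

lemma powVec_ne_zero (hℓ : 0 < ℓ) {x0 : Fin n → ℍ} (hx0 : x0 ≠ 0) (lam : ℍ) :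
    powVec ℓ x0 lam ≠ 0 := by
  obtain ⟨i, hi⟩ := Function.ne_iff.1 hx0
  intro h
  apply hi
  have := congrFun h (⟨0, hℓ⟩, i)
  simpa [powVec] using this

lemma hasDerivAt_pow_quat (lam : ℍ) (k : ℕ) (t : ℝ) :
    HasDerivAt (fun η : ℝ => (lam + (η : ℍ)) ^ k) ((k : ℝ) • (lam + (t : ℍ)) ^ (k - 1)) t := by
  have hbase : HasDerivAt (fun η : ℝ => lam + (η : ℍ)) 1 t := by
    have h1 : HasDerivAt (fun η : ℝ => η • (1 : ℍ)) ((1 : ℝ) • (1 : ℍ)) t :=
      (hasDerivAt_id t).smul_const _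
    have h2 : (fun η : ℝ => lam + (η : ℍ)) = fun η : ℝ => lam + η • (1 : ℍ) := by
      ext1 η
      rw [← Quaternion.algebraMap_def, Algebra.algebraMap_eq_smul_one]
    rw [h2]
    simpa using h1.const_add lam
  induction k with
  | zero => simpa using hasDerivAt_const t (1 : ℍ)
  | succ k ih =>
    have h := ih.mul hbase
    have h3 : (fun η : ℝ => (lam + (η : ℍ)) ^ (k + 1)) =
        (fun η : ℝ => (lam + (η : ℍ)) ^ k) * (fun η : ℝ => (lam + (η : ℍ))) := by
      ext1 η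
      simp [pow_succ]
    rw [h3]
    refine h.congr_deriv ?_
    rw [mul_one]
    rcases Nat.eq_zero_or_pos k with rfl | hk
    · simp
    · obtain ⟨m, rfl⟩ : ∃ m, k = m + 1 := ⟨k - 1, by omega⟩
      simp only [Nat.add_sub_cancel, smul_mul_assoc, ← pow_succ]
      push_cast
      module

/-- A neutral eigenvector on the imaginary axis destroys stable boundedness. -/
theorem perturb (hℓ : 0 < ℓ) (hA : IsStructured ℓ n A) {x0 : Fin n → ℍ} (hx0 : x0 ≠ 0)
    {lam : ℍ} (hlam : lam.re = 0)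
    (E : ∑ k ∈ Finset.range (ℓ + 1), A k *ᵥ rs x0 (lam ^ k) = 0)
    (N0 : ∑ k ∈ Finset.range (ℓ + 1),
      (k : ℝ) * ((star x0 ⬝ᵥ (A k *ᵥ x0)) * lam ^ (k - 1)).re = 0) :
    ¬ IsStablyBounded ℓ n A := by
  rintro ⟨ε, hε, hS⟩
  set N : ℝ := nsq x0 with hN
  have hNpos : 0 < N := nsq_pos hx0
  have hNH : star x0 ⬝ᵥ x0 = (N : ℍ) := star_dot_self x0
  set L : ℝ → ℍ := fun η => lam + (η : ℍ) with hL
  set R : ℝ → (Fin n → ℍ) := fun η => ∑ k ∈ Finset.range (ℓ + 1), A k *ᵥ rs x0 (L η ^ k) with hR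
  set ρ : ℝ → ℍ := fun η => -(star x0 ⬝ᵥ R η) with hρ
  set d1 : ℝ → ℝ := fun η => (ρ η).re / η with hd1
  set d0 : ℝ → ℍ := fun η => ρ η - d1 η • L η with hd0
  set s : ℝ → (Fin n → ℍ) := fun η => -R η - rs x0 ((d1 η / N) • L η) with hs
  set Δ1 : ℝ → Matrix (Fin n) (Fin n) ℍ := fun η =>
    (d1 η / N ^ 2) • Matrix.vecMulVec x0 (star x0) with hΔ1
  set Δ0 : ℝ → Matrix (Fin n) (Fin n) ℍ := fun η =>
    (1 / N) • (Matrix.vecMulVec (s η) (star x0) - Matrix.vecMulVec x0 (star (s η)))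
      - (1 / N ^ 2) • Matrix.vecMulVec (rs x0 (d0 η)) (star x0) with hΔ0
  -- continuity and limits at `0`
  have hLc : Continuous L := by
    simp only [hL]
    exact continuous_const.add Quaternion.continuous_coe
  have hRc : Continuous R := by
    simp only [hR]
    refine continuous_finsetSum _ fun k _ => ?_
    refine continuous_pi fun i => ?_
    simp only [Matrix.mulVec, dotProduct, rs]
    refine continuous_finsetSum _ fun j _ => ?_
    exact continuous_const.mul (continuous_const.mul (hLc.pow k))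
  have hR0 : R 0 = 0 := by
    simp only [hR, hL, Quaternion.coe_zero, add_zero]
    exact E
  have hρc : Continuous ρ := by
    simp only [hρ, dotProduct]
    refine Continuous.neg (continuous_finsetSum _ fun j _ => ?_)
    exact continuous_const.mul ((continuous_apply j).comp hRc)
  have hρ0 : ρ 0 = 0 := by simp only [hρ, hR0]; simp
  have hρform : ∀ η, ρ η = -∑ k ∈ Finset.range (ℓ + 1), (star x0 ⬝ᵥ (A k *ᵥ x0)) * L η ^ k := by
    intro η
    simp only [hρ, hR]
    rw [dotProduct_sum]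
    congr 1
    refine Finset.sum_congr rfl fun k _ => ?_
    rw [mulVec_rs, dot_rs]
  have hρre : HasDerivAt (fun η => (ρ η).re) 0 0 := by
    have h1 : HasDerivAt ρ (-∑ k ∈ Finset.range (ℓ + 1),
        (star x0 ⬝ᵥ (A k *ᵥ x0)) * ((k : ℝ) • (lam + ((0 : ℝ) : ℍ)) ^ (k - 1))) 0 := by
      have h2 : ρ = fun η => -∑ k ∈ Finset.range (ℓ + 1),
          (star x0 ⬝ᵥ (A k *ᵥ x0)) * L η ^ k := by
        ext1 η; exact hρform η
      rw [h2]
      refine HasDerivAt.fun_neg (HasDerivAt.fun_sum fun k _ => ?_)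
      exact (hasDerivAt_pow_quat lam k 0).const_mul _
    have h4 := reL.hasFDerivAt.comp_hasDerivAt (0 : ℝ) h1
    refine HasDerivAt.congr_deriv h4 ?_
    show (-∑ k ∈ Finset.range (ℓ + 1),
        (star x0 ⬝ᵥ (A k *ᵥ x0)) * ((k : ℝ) • (lam + ((0 : ℝ) : ℍ)) ^ (k - 1))).re = 0
    rw [Quaternion.re_neg, re_sum', neg_eq_zero]
    refine Eq.trans ?_ N0
    refine Finset.sum_congr rfl fun k _ => ?_
    rw [Quaternion.coe_zero, add_zero, mul_smul_comm, Quaternion.re_smul, smul_eq_mul]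
  have hd1lim : Tendsto d1 (𝓝[≠] 0) (𝓝 0) := by
    have h := hasDerivAt_iff_tendsto_slope.1 hρre
    refine h.congr' ?_
    filter_upwards [self_mem_nhdsWithin] with η _
    simp only [slope_def_field, hρ0, hd1, Quaternion.re_zero, sub_zero]
  have hLlim : Tendsto L (𝓝[≠] 0) (𝓝 lam) := by
    have h := hLc.tendsto 0
    simp only [hL, Quaternion.coe_zero, add_zero] at h
    exact h.mono_left nhdsWithin_le_nhds
  have hd0lim : Tendsto d0 (𝓝[≠] 0) (𝓝 0) := by
    have h1 : Tendsto ρ (𝓝[≠] 0) (𝓝 0) := by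
      have h := hρc.tendsto 0
      rw [hρ0] at h
      exact h.mono_left nhdsWithin_le_nhds
    have h2 := h1.sub (hd1lim.smul hLlim)
    simpa using h2
  have hslim : ∀ i, Tendsto (fun η => s η i) (𝓝[≠] 0) (𝓝 0) := by
    intro i
    have h1 : Tendsto (fun η => R η i) (𝓝[≠] 0) (𝓝 0) := by
      have h := ((continuous_apply i).comp hRc).tendsto 0
      simp only [Function.comp, hR0, Pi.zero_apply] at h
      exact h.mono_left nhdsWithin_le_nhds
    have h2 : Tendsto (fun η => x0 i * ((d1 η / N) • L η)) (𝓝[≠] 0) (𝓝 0) := by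
      have h3 := ((hd1lim.div_const N).smul hLlim).const_mul (x0 i)
      simpa using h3
    simpa [hs, rs] using h1.neg.sub h2
  have hΔ0entry : ∀ η i j, Δ0 η i j = (1 / N) • (s η i * star (x0 j) - x0 i * star (s η j))
      - (1 / N ^ 2) • (x0 i * d0 η * star (x0 j)) := by
    intro η i j
    simp only [hΔ0, Matrix.sub_apply, Matrix.smul_apply, Matrix.vecMulVec_apply, Pi.star_apply,
      rs_apply]
  have hΔ1entry : ∀ η i j, Δ1 η i j = (d1 η / N ^ 2) • (x0 i * star (x0 j)) := by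
    intro η i j
    simp only [hΔ1, Matrix.smul_apply, Matrix.vecMulVec_apply, Pi.star_apply]
  have hΔ0lim : ∀ i j, Tendsto (fun η => Δ0 η i j) (𝓝[≠] 0) (𝓝 0) := by
    intro i j
    simp only [hΔ0entry]
    have h1 := (((hslim i).mul_const (star (x0 j))).sub
      (((hslim j).star).const_mul (x0 i))).const_smul (1 / N)
    have h2 := ((hd0lim.const_mul (x0 i)).mul_const (star (x0 j))).const_smul (1 / N ^ 2)
    simpa using h1.sub h2
  have hΔ1lim : ∀ i j, Tendsto (fun η => Δ1 η i j) (𝓝[≠] 0) (𝓝 0) := by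
    intro i j
    simp only [hΔ1entry]
    have h1 := (hd1lim.div_const (N ^ 2)).smul_const (x0 i * star (x0 j))
    simpa using h1
  -- the perturbed coefficients
  set A' : ℝ → ℕ → Matrix (Fin n) (Fin n) ℍ := fun η k =>
    if k = 0 then A 0 + Δ0 η else if k = 1 then A 1 + Δ1 η else A k with hA'
  have hsmall0 : ∀ᶠ η in 𝓝[≠] (0 : ℝ), ∀ i j, ‖Δ0 η i j‖ < ε := by
    rw [eventually_all]; intro i
    rw [eventually_all]; intro j
    have h := (hΔ0lim i j).norm
    rw [norm_zero] at h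
    exact h.eventually (gt_mem_nhds hε)
  have hsmall1 : ∀ᶠ η in 𝓝[≠] (0 : ℝ), ∀ i j, ‖Δ1 η i j‖ < ε := by
    rw [eventually_all]; intro i
    rw [eventually_all]; intro j
    have h := (hΔ1lim i j).norm
    rw [norm_zero] at h
    exact h.eventually (gt_mem_nhds hε)
  have hunit : ∀ᶠ η in 𝓝[≠] (0 : ℝ), IsUnit (A' η ℓ) := by
    rcases Nat.lt_or_ge 1 ℓ with h | h
    · refine Eventually.of_forall fun η => ?_
      simp only [hA']
      rw [if_neg (by omega), if_neg (by omega)]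
      exact hA.2.2
    · obtain rfl : ℓ = 1 := by omega
      have hlim : Tendsto (fun η => A 1 + Δ1 η) (𝓝[≠] 0) (𝓝 (A 1)) := by
        refine tendsto_pi_nhds.2 fun i => tendsto_pi_nhds.2 fun j => ?_
        have := (hΔ1lim i j).const_add (A 1 i j)
        simpa using this
      have := hlim.eventually ((isOpen_isUnit_matrix n).mem_nhds hA.2.2)
      filter_upwards [this] with η hη
      have e : A' η 1 = A 1 + Δ1 η := by simp [hA']
      rw [e]
      exact hη
  obtain ⟨η, h0, h1, hu, hη⟩ := (hsmall0.and (hsmall1.and (hunit.and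
    (self_mem_nhdsWithin : {x : ℝ | x ≠ 0} ∈ 𝓝[≠] (0 : ℝ))))).exists
  have hη0 : η ≠ 0 := hη
  -- properties of `d0` and `s`
  have hLre : (L η).re = η := by simp [hL, hlam]
  have hd0re : (d0 η).re = 0 := by
    simp only [hd0, Quaternion.re_sub, Quaternion.re_smul, hLre, hd1, smul_eq_mul]
    field_simp
    ring
  have hd0star : star (d0 η) = -d0 η := by
    rw [Quaternion.star_eq_neg]
    exact hd0re
  have hxs : star x0 ⬝ᵥ s η = d0 η := by
    simp only [hs, hd0]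
    rw [dotProduct_sub, dotProduct_neg, dot_rs, hNH]
    have e1 : (N : ℍ) * ((d1 η / N) • L η) = d1 η • L η := by
      rw [Quaternion.coe_mul_eq_smul, smul_smul]
      congr 1
      field_simp
    rw [e1]
  have hsx : star (s η) ⬝ᵥ x0 = -d0 η := by
    have e1 : star (s η) ⬝ᵥ x0 = star (star x0 ⬝ᵥ s η) := by
      rw [Matrix.star_dotProduct]
    rw [e1, hxs, hd0star]
  -- the structure of `A'`
  have hstr : IsStructured ℓ n (A' η) := by
    refine ⟨fun k hk hodd => ?_, fun k hk heven => ?_, hu⟩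
    · simp only [hA']
      by_cases hk0 : k = 0
      · subst hk0; exact absurd hodd (by decide)
      rw [if_neg hk0]
      by_cases hk1 : k = 1
      · subst hk1
        rw [if_pos rfl, Matrix.conjTranspose_add, hA.1 1 hk (by decide)]
        congr 1
        ext1 i j
        rw [Matrix.conjTranspose_apply, hΔ1entry, hΔ1entry, Quaternion.star_smul, star_mul,
          star_star]
      · rw [if_neg hk1]; exact hA.1 k hk hodd
    · simp only [hA']
      by_cases hk0 : k = 0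
      · subst hk0
        rw [if_pos rfl, Matrix.conjTranspose_add, hA.2.1 0 hk (by decide), neg_add]
        congr 1
        ext1 i j
        rw [Matrix.conjTranspose_apply, Matrix.neg_apply, hΔ0entry, hΔ0entry, star_sub,
          Quaternion.star_smul, Quaternion.star_smul, star_sub, star_mul, star_mul, star_mul,
          star_mul, star_star, star_star, hd0star]
        have e1 : x0 i * (-d0 η * star (x0 j)) = -(x0 i * d0 η * star (x0 j)) := by
          rw [neg_mul, mul_neg, mul_assoc]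
        rw [e1]
        module
      · by_cases hk1 : k = 1
        · subst hk1; exact absurd heven (by decide)
        · rw [if_neg hk0, if_neg hk1]; exact hA.2.1 k hk heven
  have hclose : ∀ k ≤ ℓ, ∀ i j, ‖A' η k i j - A k i j‖ < ε := by
    intro k _ i j
    simp only [hA']
    by_cases hk0 : k = 0
    · subst hk0
      rw [if_pos rfl, Matrix.add_apply, add_sub_cancel_left]
      exact h0 i j
    · rw [if_neg hk0]
      by_cases hk1 : k = 1
      · subst hk1
        rw [if_pos rfl, Matrix.add_apply, add_sub_cancel_left]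
        exact h1 i j
      · rw [if_neg hk1, sub_self, norm_zero]; exact hε
  -- the eigenvector equation
  have hΔ1x : Δ1 η *ᵥ rs x0 (L η) = rs x0 ((d1 η / N) • L η) := by
    simp only [hΔ1]
    rw [Matrix.smul_mulVec, vecMulVec_mulVec', dot_rs, hNH, Quaternion.coe_mul_eq_smul]
    ext1 i
    simp only [Pi.smul_apply, rs, mul_smul_comm, smul_smul]
    congr 1
    field_simp
  have hΔ0x : Δ0 η *ᵥ x0 = s η := by
    simp only [hΔ0]
    rw [Matrix.sub_mulVec, Matrix.smul_mulVec, Matrix.smul_mulVec, Matrix.sub_mulVec,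
      vecMulVec_mulVec', vecMulVec_mulVec', vecMulVec_mulVec', hNH, hsx]
    ext1 i
    simp only [Pi.sub_apply, Pi.smul_apply, rs]
    have e1 : s η i * (N : ℍ) = N • s η i := by
      rw [← Quaternion.coe_mul_eq_smul, (Quaternion.coe_commutes N (s η i)).symm]
    have e2 : x0 i * d0 η * (N : ℍ) = N • (x0 i * d0 η) := by
      rw [← Quaternion.coe_mul_eq_smul, (Quaternion.coe_commutes N (x0 i * d0 η)).symm]
    rw [e1, e2, mul_neg, sub_neg_eq_add, smul_add, smul_smul, smul_smul]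
    have e3 : 1 / N * N = 1 := by field_simp
    have e4 : 1 / N ^ 2 * N = 1 / N := by field_simp
    rw [e3, e4, one_smul]
    abel
  have hE' : ∑ k ∈ Finset.range (ℓ + 1), A' η k *ᵥ rs x0 (L η ^ k) = 0 := by
    have hterm : ∀ k ∈ Finset.range (ℓ + 1), A' η k *ᵥ rs x0 (L η ^ k) =
        A k *ᵥ rs x0 (L η ^ k) + (if k = 0 then s η else 0) +
          (if k = 1 then rs x0 ((d1 η / N) • L η) else 0) := by
      intro k _
      simp only [hA']
      by_cases hk0 : k = 0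
      · subst hk0
        rw [if_pos rfl, if_pos rfl, if_neg (by decide), add_zero, Matrix.add_mulVec]
        congr 1
        have : rs x0 (L η ^ 0) = x0 := by ext1 i; simp [rs]
        rw [this, hΔ0x]
      · rw [if_neg hk0, if_neg hk0, add_zero]
        by_cases hk1 : k = 1
        · subst hk1
          rw [if_pos rfl, if_pos rfl, Matrix.add_mulVec, pow_one, hΔ1x]
        · rw [if_neg hk1, if_neg hk1, add_zero]
    rw [Finset.sum_congr rfl hterm, Finset.sum_add_distrib, Finset.sum_add_distrib,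
      Finset.sum_ite_eq', Finset.sum_ite_eq', if_pos (by simp), if_pos (by simp; omega)]
    have e1 : ∑ k ∈ Finset.range (ℓ + 1), A k *ᵥ rs x0 (L η ^ k) = R η := rfl
    rw [e1]
    simp only [hs]
    abel
  have hre := bounded_re_zero hℓ hu (hS (A' η) hstr hclose) (companion_powVec hu hE')
    (powVec_ne_zero hℓ hx0 (L η))
  exact hη0 (hLre ▸ hre)

end Perturb

section GramMatrix

variable {ℓ n : ℕ} {A : ℕ → Matrix (Fin n) (Fin n) ℍ}

lemma gram_hermitian (hA : IsStructured ℓ n A) : (gram ℓ n A)ᴴ = gram ℓ n A := by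
  ext1 p q
  obtain ⟨i, r⟩ := p
  obtain ⟨j, s⟩ := q
  rw [Matrix.conjTranspose_apply]
  simp only [gram]
  by_cases h : (i : ℕ) + (j : ℕ) + 1 ≤ ℓ
  · have h' : (j : ℕ) + (i : ℕ) + 1 ≤ ℓ := by omega
    rw [if_pos h', if_pos h, add_comm (j : ℕ) (i : ℕ), star_mul, star_pow, star_neg, star_one]
    have e : star (A ((i : ℕ) + (j : ℕ) + 1) s r) = (A ((i : ℕ) + (j : ℕ) + 1))ᴴ r s := rfl
    rw [e]
    have hcomm : ∀ (m : ℕ) (a : ℍ), a * (-1 : ℍ) ^ m = (-1 : ℍ) ^ m * a := by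
      intro m a
      exact ((Commute.neg_one_left a).pow_left m).eq.symm
    rcases Nat.even_or_odd ((i : ℕ) + (j : ℕ) + 1) with he | ho
    · rw [hA.2.1 _ h he, Matrix.neg_apply, neg_mul, hcomm]
      have hij : ((-1 : ℍ)) ^ (i : ℕ) = - (-1 : ℍ) ^ (j : ℕ) := by
        rcases Nat.even_or_odd (i : ℕ) with hi | hi
        · have hj : Odd (j : ℕ) := by
            rw [Nat.even_add_one, Nat.not_even_iff_odd] at he
            rcases Nat.even_or_odd (j : ℕ) with hj | hj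
            · exact absurd (hi.add hj) (Nat.not_even_iff_odd.2 he)
            · exact hj
          rw [hi.neg_one_pow, hj.neg_one_pow, neg_neg]
        · have hj : Even (j : ℕ) := by
            rw [Nat.even_add_one, Nat.not_even_iff_odd] at he
            rcases Nat.even_or_odd (j : ℕ) with hj | hj
            · exact hj
            · exact absurd (hi.add_odd hj) (Nat.not_even_iff_odd.2 he)
          rw [hi.neg_one_pow, hj.neg_one_pow]
      rw [hij, neg_mul]
    · rw [hA.1 _ h ho, hcomm]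
      have hij : ((-1 : ℍ)) ^ (i : ℕ) = (-1 : ℍ) ^ (j : ℕ) := by
        rcases Nat.even_or_odd (i : ℕ) with hi | hi
        · have hj : Even (j : ℕ) := by
            rcases Nat.even_or_odd (j : ℕ) with hj | hj
            · exact hj
            · exact absurd (hi.add_odd hj).add_one (Nat.not_even_iff_odd.2 ho)
          rw [hi.neg_one_pow, hj.neg_one_pow]
        · have hj : Odd (j : ℕ) := by
            rcases Nat.even_or_odd (j : ℕ) with hj | hj
            · exact absurd (hi.add_even hj).add_one (Nat.not_even_iff_odd.2 ho)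
            · exact hj
          rw [hi.neg_one_pow, hj.neg_one_pow]
      rw [hij]
  · have h' : ¬ (j : ℕ) + (i : ℕ) + 1 ≤ ℓ := by omega
    rw [if_neg h', if_neg h, star_zero]

/-- The explicit product `G C`. -/
noncomputable def gc (ℓ n : ℕ) (A : ℕ → Matrix (Fin n) (Fin n) ℍ) :
    Matrix (Fin ℓ × Fin n) (Fin ℓ × Fin n) ℍ := fun p q =>
  (if 0 < (q.1 : ℕ) ∧ (p.1 : ℕ) + (q.1 : ℕ) ≤ ℓ then
    (-1) ^ (p.1 : ℕ) * A ((p.1 : ℕ) + (q.1 : ℕ)) p.2 q.2 else 0)
    - (if (p.1 : ℕ) = 0 then A (q.1 : ℕ) p.2 q.2 else 0)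

lemma gram_mul_companion (hA : IsStructured ℓ n A) :
    gram ℓ n A * companion ℓ n A = gc ℓ n A := by
  ext1 p q
  obtain ⟨i, r⟩ := p
  obtain ⟨j, s⟩ := q
  obtain ⟨m, rfl⟩ : ∃ m, ℓ = m + 1 := ⟨ℓ - 1, by have := i.2; omega⟩
  rw [Matrix.mul_apply, Fintype.sum_prod_type, Fin.sum_univ_castSucc, gc, sub_eq_add_neg]
  congr 1
  · -- the superdiagonal part
    have h1 : ∀ a : Fin m, ∀ t : Fin n,
        gram (m + 1) n A (i, r) (a.castSucc, t) * companion (m + 1) n A (a.castSucc, t) (j, s) =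
        if (j : ℕ) = (a : ℕ) + 1 ∧ s = t then gram (m + 1) n A (i, r) (a.castSucc, t) else 0 := by
      intro a t
      simp only [companion, Fin.val_castSucc]
      rw [if_pos (by have := a.2; omega)]
      by_cases h : (j : ℕ) = (a : ℕ) + 1 ∧ s = t
      · rw [if_pos h, if_pos h, mul_one]
      · rw [if_neg h, if_neg h, mul_zero]
    simp only [h1]
    by_cases hj : 0 < (j : ℕ)
    · have hjm : (j : ℕ) - 1 < m := by have := j.2; omega
      rw [Finset.sum_eq_single (⟨(j : ℕ) - 1, hjm⟩ : Fin m)]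
      · rw [Finset.sum_eq_single s]
        · rw [if_pos ⟨by simp; omega, rfl⟩]
          simp only [gram, Fin.val_castSucc]
          have e1 : (i : ℕ) + ((j : ℕ) - 1) + 1 = (i : ℕ) + (j : ℕ) := by omega
          rw [e1]
          by_cases h2 : (i : ℕ) + (j : ℕ) ≤ m + 1
          · rw [if_pos h2, if_pos ⟨hj, h2⟩]
          · rw [if_neg h2, if_neg (fun h => h2 h.2)]
        · intro t _ ht
          rw [if_neg (fun h => ht h.2.symm)]
        · intro h; exact absurd (Finset.mem_univ _) h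
      · intro a _ ha
        refine Finset.sum_eq_zero fun t _ => ?_
        rw [if_neg]
        rintro ⟨h2, -⟩
        apply ha
        ext
        simp; omega
      · intro h; exact absurd (Finset.mem_univ _) h
    · rw [if_neg (fun h => hj h.1)]
      refine Finset.sum_eq_zero fun a _ => Finset.sum_eq_zero fun t _ => ?_
      rw [if_neg]
      rintro ⟨h2, -⟩
      omega
  · -- the last block row
    have h1 : ∀ t : Fin n, gram (m + 1) n A (i, r) (Fin.last m, t) *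
        companion (m + 1) n A (Fin.last m, t) (j, s) =
        if (i : ℕ) = 0 then -(A (m + 1) r t * (Ring.inverse (A (m + 1)) * A (j : ℕ)) t s)
        else 0 := by
      intro t
      simp only [companion, gram, Fin.val_last]
      rw [if_neg (by omega : ¬ (m + 1 < m + 1))]
      by_cases hi : (i : ℕ) = 0
      · rw [if_pos hi, hi, if_pos (by omega)]
        simp
      · rw [if_neg hi, if_neg (by omega), zero_mul]
    simp only [h1]
    by_cases hi : (i : ℕ) = 0
    · simp only [if_pos hi]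
      rw [Finset.sum_neg_distrib]
      congr 1
      have h2 : A (j : ℕ) = A (m + 1) * (Ring.inverse (A (m + 1)) * A (j : ℕ)) := by
        rw [← mul_assoc, Ring.mul_inverse_cancel _ hA.2.2, one_mul]
      conv_rhs => rw [h2]
      rw [Matrix.mul_apply]
    · simp only [if_neg hi]
      simp

lemma gc_skew (hA : IsStructured ℓ n A) : (gc ℓ n A)ᴴ = - gc ℓ n A := by
  ext1 p q
  obtain ⟨i, r⟩ := p
  obtain ⟨j, s⟩ := q
  rw [Matrix.conjTranspose_apply, Matrix.neg_apply]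
  simp only [gc]
  have hcomm : ∀ (m : ℕ) (a : ℍ), a * (-1 : ℍ) ^ m = (-1 : ℍ) ^ m * a := by
    intro m a
    exact ((Commute.neg_one_left a).pow_left m).eq.symm
  have hi := i.2
  have hj := j.2
  have key : ∀ k ≤ ℓ, ∀ a b, star (A k a b) = - (-1 : ℍ) ^ k * A k b a := by
    intro k hk a b
    have e : star (A k a b) = (A k)ᴴ b a := rfl
    rw [e]
    rcases Nat.even_or_odd k with he | ho
    · rw [hA.2.1 k hk he, he.neg_one_pow, Matrix.neg_apply]; simp
    · rw [hA.1 k hk ho, ho.neg_one_pow]; simp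
  rcases Nat.eq_zero_or_pos (i : ℕ) with hi0 | hi0 <;> rcases Nat.eq_zero_or_pos (j : ℕ) with hj0 | hj0
  · rw [hi0, hj0]
    simp only [lt_irrefl, false_and, if_false, if_true, zero_sub, star_neg]
    rw [key 0 (Nat.zero_le _)]
    simp
  · rw [if_neg (by omega : ¬ (0 < (i : ℕ) ∧ (j : ℕ) + (i : ℕ) ≤ ℓ)),
      if_neg (by omega : ¬ (j : ℕ) = 0), if_pos (by omega : 0 < (j : ℕ) ∧ (i : ℕ) + (j : ℕ) ≤ ℓ),
      if_pos hi0, hi0]
    simp
  · rw [if_pos (by omega : 0 < (i : ℕ) ∧ (j : ℕ) + (i : ℕ) ≤ ℓ), if_pos hj0,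
      if_neg (by omega : ¬ (0 < (j : ℕ) ∧ (i : ℕ) + (j : ℕ) ≤ ℓ)),
      if_neg (by omega : ¬ (i : ℕ) = 0), hj0]
    simp
  · rw [if_neg (by omega : ¬ (j : ℕ) = 0), if_neg (by omega : ¬ (i : ℕ) = 0), sub_zero, sub_zero]
    by_cases h : (i : ℕ) + (j : ℕ) ≤ ℓ
    · rw [if_pos ⟨hi0, by omega⟩, if_pos ⟨hj0, h⟩, add_comm (j : ℕ) (i : ℕ), star_mul, star_pow,
        star_neg, star_one, key _ h, hcomm, ← mul_assoc, mul_neg, ← pow_add, neg_mul]
      congr 2
      have e : (j : ℕ) + ((i : ℕ) + (j : ℕ)) = (i : ℕ) + 2 * (j : ℕ) := by ring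
      rw [e, pow_add, pow_mul]
      simp
    · rw [if_neg (by omega), if_neg (by omega)]
      simp

end GramMatrix

section Form

variable {ℓ n : ℕ} {A : ℕ → Matrix (Fin n) (Fin n) ℍ}

lemma gram_companion_adjoint (hA : IsStructured ℓ n A) (u v : Fin ℓ × Fin n → ℍ) :
    star (companion ℓ n A *ᵥ u) ⬝ᵥ (gram ℓ n A *ᵥ v) =
      - (star u ⬝ᵥ (gram ℓ n A *ᵥ (companion ℓ n A *ᵥ v))) := by
  have h1 : (companion ℓ n A)ᴴ * gram ℓ n A = - (gram ℓ n A * companion ℓ n A) := by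
    have h2 : ((gram ℓ n A * companion ℓ n A))ᴴ = - (gram ℓ n A * companion ℓ n A) := by
      rw [gram_mul_companion hA, gc_skew hA]
    rw [Matrix.conjTranspose_mul, gram_hermitian hA] at h2
    exact h2
  rw [Matrix.star_mulVec, ← Matrix.dotProduct_mulVec, Matrix.mulVec_mulVec, h1,
    Matrix.neg_mulVec, dotProduct_neg, Matrix.mulVec_mulVec]

lemma star_form (hA : IsStructured ℓ n A) (u v : Fin ℓ × Fin n → ℍ) :
    star (star u ⬝ᵥ (gram ℓ n A *ᵥ v)) = star v ⬝ᵥ (gram ℓ n A *ᵥ u) := by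
  rw [← Matrix.star_dotProduct, Matrix.star_mulVec, gram_hermitian hA, Matrix.dotProduct_mulVec]

/-- `x* G x` is real -/
lemma form_real (hA : IsStructured ℓ n A) (x : Fin ℓ × Fin n → ℍ) :
    star x ⬝ᵥ (gram ℓ n A *ᵥ x) = (((star x ⬝ᵥ (gram ℓ n A *ᵥ x)).re : ℝ) : ℍ) :=
  Quaternion.star_eq_self.1 (star_form hA x x)

/-- the real quadratic form `x* G x` -/
noncomputable def qf (ℓ n : ℕ) (A : ℕ → Matrix (Fin n) (Fin n) ℍ) (x : Fin ℓ × Fin n → ℍ) : ℝ :=
  (star x ⬝ᵥ (gram ℓ n A *ᵥ x)).re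

lemma qf_add (hA : IsStructured ℓ n A) (x y : Fin ℓ × Fin n → ℍ) :
    qf ℓ n A (x + y) = qf ℓ n A x + qf ℓ n A y + 2 * (star x ⬝ᵥ (gram ℓ n A *ᵥ y)).re := by
  have h : (star y ⬝ᵥ (gram ℓ n A *ᵥ x)).re = (star x ⬝ᵥ (gram ℓ n A *ᵥ y)).re := by
    rw [← star_form hA x y, Quaternion.re_star]
  simp only [qf]
  rw [star_add, Matrix.mulVec_add, add_dotProduct, dotProduct_add, dotProduct_add,
    Quaternion.re_add, Quaternion.re_add, Quaternion.re_add, h]
  ring

lemma qf_smul (c : ℝ) (x : Fin ℓ × Fin n → ℍ) :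
    qf ℓ n A (c • x) = c ^ 2 * qf ℓ n A x := by
  have h : star (c • x) = c • star x := by
    ext1 p; simp only [Pi.star_apply, Pi.smul_apply, Quaternion.star_smul]
  simp only [qf]
  rw [h, Matrix.mulVec_smul, smul_dotProduct, dotProduct_smul, Quaternion.re_smul,
    Quaternion.re_smul]
  simp only [smul_eq_mul]; ring

lemma qf_rs (hA : IsStructured ℓ n A) (x : Fin ℓ × Fin n → ℍ) (c : ℍ) :
    qf ℓ n A (rs x c) = Quaternion.normSq c * qf ℓ n A x := by
  have h : star (rs x c) ⬝ᵥ (gram ℓ n A *ᵥ rs x c) =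
      ((Quaternion.normSq c * qf ℓ n A x : ℝ) : ℍ) := by
    rw [mulVec_rs, dot_rs, star_rs_dot, form_real hA x, mul_assoc,
      Quaternion.coe_commutes, ← mul_assoc, Quaternion.star_mul_self, ← Quaternion.coe_mul]
    rfl
  simp only [qf] at *
  rw [h, Quaternion.re_coe]

/-- the value of the form on `(x₀, x₀λ, ...)` for purely imaginary `λ` -/
lemma qf_powVec (x0 : Fin n → ℍ) {lam : ℍ} (hlam : lam.re = 0) :
    qf ℓ n A (powVec ℓ x0 lam) = ∑ k ∈ Finset.range (ℓ + 1),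
      (k : ℝ) * ((star x0 ⬝ᵥ (A k *ᵥ x0)) * lam ^ (k - 1)).re := by
  set f : ℕ → ℝ := fun k => ((star x0 ⬝ᵥ (A k *ᵥ x0)) * lam ^ (k - 1)).re with hf
  have hstar : star lam = -lam := Quaternion.star_eq_neg.2 hlam
  -- each block
  have hblock : ∀ i j : Fin ℓ, ∑ r : Fin n, star (powVec ℓ x0 lam (i, r)) *
      ∑ s : Fin n, gram ℓ n A (i, r) (j, s) * powVec ℓ x0 lam (j, s) =
      if (i : ℕ) + (j : ℕ) + 1 ≤ ℓ then
        lam ^ (i : ℕ) * (star x0 ⬝ᵥ (A ((i : ℕ) + (j : ℕ) + 1) *ᵥ x0)) * lam ^ (j : ℕ) else 0 := by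
    intro i j
    simp only [gram, powVec]
    by_cases h : (i : ℕ) + (j : ℕ) + 1 ≤ ℓ
    · simp only [if_pos h]
      rw [mul_assoc]
      simp only [dotProduct, Matrix.mulVec, Finset.sum_mul, Finset.mul_sum, Pi.star_apply]
      refine Finset.sum_congr rfl fun r _ => Finset.sum_congr rfl fun s _ => ?_
      rw [star_mul, star_pow, hstar, neg_pow]
      have hcomm : ∀ (m : ℕ) (a : ℍ), a * (-1 : ℍ) ^ m = (-1 : ℍ) ^ m * a := by
        intro m a
        exact ((Commute.neg_one_left a).pow_left m).eq.symm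
      have hsq : ((-1 : ℍ)) ^ (i : ℕ) * (-1 : ℍ) ^ (i : ℕ) = 1 := by
        rw [← pow_add, ← two_mul, pow_mul]; simp
      calc (-1) ^ (i : ℕ) * lam ^ (i : ℕ) * star (x0 r) *
            ((-1) ^ (i : ℕ) * A ((i : ℕ) + (j : ℕ) + 1) r s * (x0 s * lam ^ (j : ℕ)))
          = ((-1) ^ (i : ℕ) * (lam ^ (i : ℕ) * star (x0 r)) * (-1) ^ (i : ℕ)) *
            (A ((i : ℕ) + (j : ℕ) + 1) r s * (x0 s * lam ^ (j : ℕ))) := by
            simp only [mul_assoc]
        _ = lam ^ (i : ℕ) * (star (x0 r) * (A ((i : ℕ) + (j : ℕ) + 1) r s * x0 s) *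
            lam ^ (j : ℕ)) := by
            have e1 : (-1 : ℍ) ^ (i : ℕ) * (lam ^ (i : ℕ) * star (x0 r)) * (-1) ^ (i : ℕ) =
                lam ^ (i : ℕ) * star (x0 r) := by
              rw [mul_assoc, hcomm, ← mul_assoc, hsq, one_mul]
            rw [e1]
            simp only [mul_assoc]
    · simp only [if_neg h]
      simp
  have hre : ∀ i j : Fin ℓ, (if (i : ℕ) + (j : ℕ) + 1 ≤ ℓ then
        lam ^ (i : ℕ) * (star x0 ⬝ᵥ (A ((i : ℕ) + (j : ℕ) + 1) *ᵥ x0)) * lam ^ (j : ℕ)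
        else (0 : ℍ)).re = if (i : ℕ) + (j : ℕ) + 1 ≤ ℓ then f ((i : ℕ) + (j : ℕ) + 1) else 0 := by
    intro i j
    by_cases h : (i : ℕ) + (j : ℕ) + 1 ≤ ℓ
    · rw [if_pos h, if_pos h, mul_assoc, re_mul_comm, mul_assoc, ← pow_add]
      simp only [hf, Nat.add_sub_cancel]
      rw [add_comm (j : ℕ) (i : ℕ)]
    · rw [if_neg h, if_neg h, Quaternion.re_zero]
  have h1 : qf ℓ n A (powVec ℓ x0 lam) =
      ∑ i : Fin ℓ, ∑ j : Fin ℓ, if (i : ℕ) + (j : ℕ) + 1 ≤ ℓ then f ((i : ℕ) + (j : ℕ) + 1) else 0 := by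
    have e1 : star (powVec ℓ x0 lam) ⬝ᵥ (gram ℓ n A *ᵥ powVec ℓ x0 lam) =
        ∑ i : Fin ℓ, ∑ j : Fin ℓ, ∑ r : Fin n, star (powVec ℓ x0 lam (i, r)) *
        ∑ s : Fin n, gram ℓ n A (i, r) (j, s) * powVec ℓ x0 lam (j, s) := by
      simp only [dotProduct, Matrix.mulVec]
      rw [Fintype.sum_prod_type]
      refine Finset.sum_congr rfl fun i _ => ?_
      rw [Finset.sum_comm]
      refine Finset.sum_congr rfl fun r _ => ?_
      rw [Fintype.sum_prod_type, Pi.star_apply, Finset.mul_sum]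
    rw [qf, e1, re_sum']
    refine Finset.sum_congr rfl fun i _ => ?_
    rw [re_sum']
    refine Finset.sum_congr rfl fun j _ => ?_
    rw [hblock, hre]
  rw [h1]
  have h2 : ∀ i : Fin ℓ, (∑ j : Fin ℓ, if (i : ℕ) + (j : ℕ) + 1 ≤ ℓ then
      f ((i : ℕ) + (j : ℕ) + 1) else 0) = ∑ j ∈ Finset.range (ℓ - (i : ℕ)), f ((i : ℕ) + j + 1) := by
    intro i
    rw [Fin.sum_univ_eq_sum_range (fun j => if (i : ℕ) + j + 1 ≤ ℓ then
      f ((i : ℕ) + j + 1) else 0) ℓ, ← Finset.sum_filter]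
    refine Finset.sum_congr ?_ fun _ _ => rfl
    ext j
    simp only [Finset.mem_filter, Finset.mem_range]
    omega
  simp only [h2]
  rw [Fin.sum_univ_eq_sum_range (fun i => ∑ j ∈ Finset.range (ℓ - i), f (i + j + 1)) ℓ,
    ← Finset.sum_range_diag_flip ℓ (fun i j => f (i + j + 1)), Finset.sum_range_succ']
  simp only [Nat.cast_zero, zero_mul, add_zero]
  refine Finset.sum_congr rfl fun m _ => ?_
  have h3 : ∀ k ∈ Finset.range (m + 1), f (k + (m - k) + 1) = f (m + 1) := by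
    intro k hk
    have := Finset.mem_range.1 hk
    congr 1; omega
  rw [Finset.sum_congr rfl h3, Finset.sum_const, Finset.card_range, nsmul_eq_mul]

end Form

section Final

variable {ℓ n : ℕ} {A : ℕ → Matrix (Fin n) (Fin n) ℍ}

lemma eigen_eq_powVec (hℓ : 0 < ℓ) {w : Fin ℓ × Fin n → ℍ} {lam : ℍ}
    (hw : companion ℓ n A *ᵥ w = rs w lam) :
    w = powVec ℓ (fun i => w (⟨0, hℓ⟩, i)) lam := by
  ext1 p
  exact eigen_first_block hℓ hw p.1 p.1.2 p.2

lemma eigen_equation (hℓ : 0 < ℓ) (hu : IsUnit (A ℓ)) {w : Fin ℓ × Fin n → ℍ} {lam : ℍ}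
    (hw : companion ℓ n A *ᵥ w = rs w lam) :
    ∑ k ∈ Finset.range (ℓ + 1), A k *ᵥ rs (fun i => w (⟨0, hℓ⟩, i)) (lam ^ k) = 0 := by
  have h := last_row hu (j := ℓ - 1) (by omega) w
    (rs (fun i => w (⟨0, hℓ⟩, i)) (lam ^ ℓ)) (fun i => by
      rw [hw, rs_apply, eigen_first_block hℓ hw (ℓ - 1) (by omega) i, rs_apply, mul_assoc,
        ← pow_succ]
      congr 2; omega)
  rw [Finset.sum_range_succ, ← Fin.sum_univ_eq_sum_range
    (fun k => A k *ᵥ rs (fun i => w (⟨0, hℓ⟩, i)) (lam ^ k)) ℓ]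
  rw [← h]
  congr 1
  refine Finset.sum_congr rfl fun k _ => ?_
  congr 1
  ext1 s
  exact (eigen_first_block hℓ hw k k.2 s).symm

/-- no neutral eigenvectors -/
lemma no_neutral (hℓ : 0 < ℓ) (hA : IsStructured ℓ n A) (hS : IsStablyBounded ℓ n A) {lam : ℍ}
    (hlam : lam.re = 0) {w : Fin ℓ × Fin n → ℍ} (hw : companion ℓ n A *ᵥ w = rs w lam)
    (hw0 : w ≠ 0) : qf ℓ n A w ≠ 0 := by
  intro hq
  have hx0 : (fun i => w (⟨0, hℓ⟩, i)) ≠ 0 := by
    obtain ⟨i, hi⟩ := eigen_ne_zero hℓ hw hw0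
    intro h
    exact hi (congrFun h i)
  refine perturb hℓ hA hx0 hlam (eigen_equation hℓ hA.2.2 hw) ?_ hS
  rw [← qf_powVec _ hlam, ← eigen_eq_powVec hℓ hw, hq]

/-- the form has a constant sign on the eigenvectors of a purely imaginary eigenvalue -/
lemma sign_dichotomy (hℓ : 0 < ℓ) (hA : IsStructured ℓ n A) (hS : IsStablyBounded ℓ n A) {lam : ℍ}
    (hlam : lam.re = 0) :
    (∀ w, companion ℓ n A *ᵥ w = rs w lam → w ≠ 0 → 0 < qf ℓ n A w) ∨
    (∀ w, companion ℓ n A *ᵥ w = rs w lam → w ≠ 0 → qf ℓ n A w < 0) := by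
  by_contra hcon
  push Not at hcon
  obtain ⟨⟨w₂, hw₂, hw₂0, hq₂⟩, ⟨w₁, hw₁, hw₁0, hq₁⟩⟩ := hcon
  have hq₂' : qf ℓ n A w₂ < 0 := lt_of_le_of_ne hq₂ (no_neutral hℓ hA hS hlam hw₂ hw₂0)
  have hq₁' : 0 < qf ℓ n A w₁ := lt_of_le_of_ne hq₁ (no_neutral hℓ hA hS hlam hw₁ hw₁0).symm
  set c : ℝ := (star w₁ ⬝ᵥ (gram ℓ n A *ᵥ w₂)).re with hc
  have hform : ∀ t : ℝ, qf ℓ n A (w₁ + t • w₂) =
      qf ℓ n A w₁ + 2 * c * t + qf ℓ n A w₂ * t ^ 2 := by
    intro t
    rw [qf_add hA, qf_smul, Matrix.mulVec_smul, dotProduct_smul, Quaternion.re_smul, ← hc,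
      smul_eq_mul]
    ring
  -- find a root
  obtain ⟨t, ht⟩ : ∃ t : ℝ, qf ℓ n A w₁ + 2 * c * t + qf ℓ n A w₂ * t ^ 2 = 0 := by
    have hdisc : 0 ≤ c ^ 2 - qf ℓ n A w₁ * qf ℓ n A w₂ := by
      nlinarith [sq_nonneg c, mul_pos hq₁' (neg_pos.2 hq₂')]
    refine ⟨(-c - Real.sqrt (c ^ 2 - qf ℓ n A w₁ * qf ℓ n A w₂)) / qf ℓ n A w₂, ?_⟩
    have hsq := Real.sq_sqrt hdisc
    set s := Real.sqrt (c ^ 2 - qf ℓ n A w₁ * qf ℓ n A w₂) with hs
    have hne : qf ℓ n A w₂ ≠ 0 := hq₂'.ne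
    field_simp
    nlinarith [hsq]
  have hw : companion ℓ n A *ᵥ (w₁ + t • w₂) = rs (w₁ + t • w₂) lam := by
    rw [Matrix.mulVec_add, Matrix.mulVec_smul, hw₁, hw₂]
    ext1 p
    simp only [rs, Pi.add_apply, Pi.smul_apply, add_mul, smul_mul_assoc]
  have hne : w₁ + t • w₂ ≠ 0 := by
    intro h
    have h1 : w₁ = (-t) • w₂ := by
      rw [neg_smul]; exact eq_neg_of_add_eq_zero_left h
    rw [h1, qf_smul] at hq₁'
    nlinarith [sq_nonneg (-t)]
  exact no_neutral hℓ hA hS hlam hw hne (by rw [hform, ht])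

/-- a quaternion anticommuting with a purely imaginary one -/
lemma exists_anticomm {μ : ℍ} (hμ : μ.re = 0) : ∃ ν : ℍ, ν ≠ 0 ∧ μ * ν = -(ν * μ) := by
  have key : ∀ ν : ℍ, ν.re = 0 → μ.imI * ν.imI + μ.imJ * ν.imJ + μ.imK * ν.imK = 0 →
      μ * ν = -(ν * μ) := by
    intro ν hν hdot
    apply Quaternion.ext
    · rw [Quaternion.re_neg, Quaternion.re_mul, Quaternion.re_mul, hμ, hν]; linarith
    · rw [Quaternion.imI_neg, Quaternion.imI_mul, Quaternion.imI_mul, hμ, hν]; ring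
    · rw [Quaternion.imJ_neg, Quaternion.imJ_mul, Quaternion.imJ_mul, hμ, hν]; ring
    · rw [Quaternion.imK_neg, Quaternion.imK_mul, Quaternion.imK_mul, hμ, hν]; ring
  by_cases h : μ.imI = 0 ∧ μ.imJ = 0
  · refine ⟨⟨0, 1, 0, 0⟩, ?_, key _ rfl ?_⟩
    · intro h0
      have h1 : (1 : ℝ) = 0 := congrArg (fun q : ℍ => q.imI) h0
      exact one_ne_zero h1
    · show μ.imI * 1 + μ.imJ * 0 + μ.imK * 0 = 0
      rw [h.1]; ring
  · refine ⟨⟨0, -μ.imJ, μ.imI, 0⟩, ?_, key _ rfl ?_⟩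
    · intro h0
      apply h
      have h1 : -μ.imJ = 0 := congrArg (fun q : ℍ => q.imI) h0
      have h2 : μ.imI = 0 := congrArg (fun q : ℍ => q.imJ) h0
      exact ⟨h2, neg_eq_zero.1 h1⟩
    · show μ.imI * (-μ.imJ) + μ.imJ * μ.imI + μ.imK * 0 = 0
      ring

/-- powers of a matrix with no nilpotent part have the same kernel -/
lemma ker_pow {ι : Type} [Fintype ι] [DecidableEq ι] {P : Matrix ι ι ℍ}
    (h2 : ∀ x, P *ᵥ (P *ᵥ x) = 0 → P *ᵥ x = 0) :
    ∀ (N : ℕ) (x : ι → ℍ), (P ^ N) *ᵥ x = 0 → P *ᵥ x = 0 := by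
  intro N
  induction N with
  | zero => intro x hx; rw [pow_zero, Matrix.one_mulVec] at hx; rw [hx, Matrix.mulVec_zero]
  | succ N ih =>
    intro x hx
    rw [pow_succ, ← Matrix.mulVec_mulVec] at hx
    exact h2 x (ih _ hx)

/-- **Main theorem**: if the system is stably bounded then every root subspace of the companion
matrix is positive or negative with respect to the form. -/
theorem stably_bounded_definite (ℓ n : ℕ) (hℓ : 1 ≤ ℓ) (A : ℕ → Matrix (Fin n) (Fin n) ℍ)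
    (hA : IsStructured ℓ n A) (hS : IsStablyBounded ℓ n A) (μ : ℍ)
    (hμ : IsEigenvalue (companion ℓ n A) μ) :
    IsPositiveOn (gram ℓ n A) (rootSubspace (companion ℓ n A) (ℓ * n) μ) ∨
    IsNegativeOn (gram ℓ n A) (rootSubspace (companion ℓ n A) (ℓ * n) μ) := by
  have hℓ' : 0 < ℓ := hℓ
  have hB : IsBoundedSystem ℓ n A := by
    obtain ⟨ε, hε, h⟩ := hS
    exact h A hA (fun k _ i j => by rw [sub_self, norm_zero]; exact hε)
  set C := companion ℓ n A with hC
  have hre : μ.re = 0 := by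
    obtain ⟨w, hw0, hw⟩ := hμ
    exact bounded_re_zero hℓ' hA.2.2 hB (w := w) hw hw0
  -- it suffices to control the sign of `qf`
  suffices H : (∀ x ∈ rootSubspace C (ℓ * n) μ, x ≠ 0 → 0 < qf ℓ n A x) ∨
      (∀ x ∈ rootSubspace C (ℓ * n) μ, x ≠ 0 → qf ℓ n A x < 0) by
    rcases H with H | H
    · left
      intro x hx hx0
      exact ⟨qf ℓ n A x, H x hx hx0, form_real hA x⟩
    · right
      intro x hx hx0
      exact ⟨qf ℓ n A x, H x hx hx0, form_real hA x⟩
  by_cases hreal : μ = (μ.re : ℍ)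
  · -- the eigenvalue is zero
    have hker : ∀ x ∈ rootSubspace C (ℓ * n) μ, C *ᵥ x = rs x 0 := by
      intro x hx
      rw [rootSubspace, if_pos hreal, hre, zero_smul, sub_zero] at hx
      have h := ker_pow (P := C) (fun y hy => ker_zero hℓ' hA.2.2 hB y hy) _ x hx
      rw [h]
      ext1 p; simp [rs]
    rcases sign_dichotomy hℓ' hA hS (lam := 0) rfl with H | H
    · left; intro x hx hx0; exact H x (hker x hx) hx0
    · right; intro x hx hx0; exact H x (hker x hx) hx0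
  · -- a nonzero purely imaginary eigenvalue
    have hμ0 : μ ≠ 0 := by
      rintro rfl
      exact hreal (by simp)
    set ω : ℝ := ‖μ‖ with hω
    have hωpos : 0 < ω := norm_pos_iff.2 hμ0
    have hμμ : μ * μ = -((ω ^ 2 : ℝ) : ℍ) := by
      have h1 : star μ = -μ := Quaternion.star_eq_neg.2 hre
      have h2 := Quaternion.star_mul_self μ
      rw [h1, Quaternion.normSq_eq_norm_mul_self, ← hω] at h2
      rw [neg_mul] at h2
      rw [← neg_eq_iff_eq_neg, h2, sq]
    have hP : ∀ x, (C ^ 2 - (2 * μ.re) • C + (ω ^ 2) • (1 : Matrix _ _ ℍ)) *ᵥ x =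
        C *ᵥ (C *ᵥ x) + ω ^ 2 • x := by
      intro x
      rw [hre, mul_zero, zero_smul, sub_zero, Matrix.add_mulVec, Matrix.smul_mulVec,
        Matrix.one_mulVec, sq, ← Matrix.mulVec_mulVec]
    have hker : ∀ x ∈ rootSubspace C (ℓ * n) μ, C *ᵥ (C *ᵥ x) = - (ω ^ 2 • x) := by
      intro x hx
      rw [rootSubspace, if_neg hreal] at hx
      have h := ker_pow (P := C ^ 2 - (2 * μ.re) • C + (ω ^ 2) • (1 : Matrix _ _ ℍ))
        (fun y hy => by
          set z := (C ^ 2 - (2 * μ.re) • C + (ω ^ 2) • (1 : Matrix _ _ ℍ)) *ᵥ y with hz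
          refine ker_omega hℓ' hA.2.2 hB hωpos y z ?_ ?_
          · rw [hz, hP]; abel
          · rw [hP] at hy
            exact eq_neg_of_add_eq_zero_left hy) _ x hx
      rw [hP] at h
      exact eq_neg_of_add_eq_zero_left h
    obtain ⟨ν, hν0, hν⟩ := exists_anticomm hre
    -- the decomposition
    have hdecomp : ∀ x ∈ rootSubspace C (ℓ * n) μ, ∃ u v : Fin ℓ × Fin n → ℍ,
        x = u + v ∧ C *ᵥ u = rs u μ ∧ C *ᵥ v = rs v (-μ) := by
      intro x hx
      have hCC := hker x hx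
      refine ⟨(1 / 2 : ℝ) • (x - (1 / ω ^ 2) • rs (C *ᵥ x) μ),
        (1 / 2 : ℝ) • (x + (1 / ω ^ 2) • rs (C *ᵥ x) μ), ?_, ?_, ?_⟩
      · module
      · rw [Matrix.mulVec_smul, Matrix.mulVec_sub, Matrix.mulVec_smul, mulVec_rs, hCC]
        ext1 p
        simp only [Pi.smul_apply, Pi.sub_apply, Pi.neg_apply, rs]
        have e1 : (1 / ω ^ 2) • (-(ω ^ 2 • x p) * μ) = -(x p * μ) := by
          rw [neg_mul, smul_neg, smul_mul_assoc, smul_smul]
          have : 1 / ω ^ 2 * ω ^ 2 = 1 := by field_simp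
          rw [this, one_smul]
        have e2 : ((1 / ω ^ 2) • ((C *ᵥ x) p * μ)) * μ = -((C *ᵥ x) p) := by
          rw [smul_mul_assoc, mul_assoc, hμμ, mul_neg, smul_neg, ← Quaternion.coe_commutes,
            Quaternion.coe_mul_eq_smul, smul_smul]
          have : 1 / ω ^ 2 * ω ^ 2 = 1 := by field_simp
          rw [this, one_smul]
        rw [e1, smul_mul_assoc, sub_mul, e2]
        module
      · rw [Matrix.mulVec_smul, Matrix.mulVec_add, Matrix.mulVec_smul, mulVec_rs, hCC]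
        ext1 p
        simp only [Pi.smul_apply, Pi.add_apply, Pi.neg_apply, rs]
        have e1 : (1 / ω ^ 2) • (-(ω ^ 2 • x p) * μ) = -(x p * μ) := by
          rw [neg_mul, smul_neg, smul_mul_assoc, smul_smul]
          have : 1 / ω ^ 2 * ω ^ 2 = 1 := by field_simp
          rw [this, one_smul]
        have e2 : ((1 / ω ^ 2) • ((C *ᵥ x) p * μ)) * μ = -((C *ᵥ x) p) := by
          rw [smul_mul_assoc, mul_assoc, hμμ, mul_neg, smul_neg, ← Quaternion.coe_commutes,
            Quaternion.coe_mul_eq_smul, smul_smul]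
          have : 1 / ω ^ 2 * ω ^ 2 = 1 := by field_simp
          rw [this, one_smul]
        rw [e1, smul_mul_assoc, mul_neg, add_mul, e2]
        module
    -- the cross term vanishes
    have hcross : ∀ u v : Fin ℓ × Fin n → ℍ, C *ᵥ u = rs u μ → C *ᵥ v = rs v (-μ) →
        (star u ⬝ᵥ (gram ℓ n A *ᵥ v)).re = 0 := by
      intro u v hu hv
      have h1 := gram_companion_adjoint hA u v
      rw [← hC, hu, hv, star_rs_dot, mulVec_rs, dot_rs, Quaternion.star_eq_neg.2 hre] at h1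
      set h := star u ⬝ᵥ (gram ℓ n A *ᵥ v) with hh
      -- `-μ h = h μ`
      have h2 : -μ * h = h * μ := by rw [h1]; simp
      have h3 : (μ * (μ * h)).re = -(μ * (h * μ)).re := by
        rw [← h2]; simp
      have h4 : (μ * (h * μ)).re = ((μ * μ) * h).re := by
        rw [← mul_assoc, re_mul_comm, ← mul_assoc]
      rw [h4, ← mul_assoc, hμμ, neg_mul, Quaternion.re_neg, Quaternion.coe_mul_eq_smul,
        Quaternion.re_smul, smul_eq_mul] at h3
      have h5 : ω ^ 2 * h.re = 0 := by linarith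
      rcases mul_eq_zero.1 h5 with h6 | h6
      · exact absurd h6 (by positivity)
      · exact h6
    have hqf : ∀ x ∈ rootSubspace C (ℓ * n) μ, ∃ u v' : Fin ℓ × Fin n → ℍ,
        C *ᵥ u = rs u μ ∧ C *ᵥ v' = rs v' μ ∧
        qf ℓ n A x = qf ℓ n A u + (Quaternion.normSq ν)⁻¹ * qf ℓ n A v' ∧
        (u = 0 → v' = 0 → x = 0) := by
      intro x hx
      obtain ⟨u, v, hxuv, hu, hv⟩ := hdecomp x hx
      refine ⟨u, rs v ν, hu, ?_, ?_, ?_⟩
      · rw [mulVec_rs, hv]
        ext1 p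
        simp only [rs, mul_assoc]
        rw [neg_mul, hν, neg_neg]
      · rw [hxuv, qf_add hA, hcross u v hu hv, qf_rs hA, mul_zero, add_zero, ← mul_assoc,
          inv_mul_cancel₀ (by rwa [Ne, Quaternion.normSq_eq_zero]), one_mul]
      · intro hu0 hv0
        have : v = 0 := by
          ext1 p
          have h := congrFun hv0 p
          simp only [rs, Pi.zero_apply] at h
          exact (mul_eq_zero.1 h).resolve_right hν0
        rw [hxuv, hu0, this, add_zero]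
    have hνpos : 0 < (Quaternion.normSq ν)⁻¹ :=
      inv_pos.2 (lt_of_le_of_ne Quaternion.normSq_nonneg
        (Ne.symm (mt Quaternion.normSq_eq_zero.1 hν0)))
    have hzero : qf ℓ n A 0 = 0 := by
      simp [qf]
    rcases sign_dichotomy hℓ' hA hS hre with H | H
    · left
      intro x hx hx0
      obtain ⟨u, v', hu, hv', hq, hz⟩ := hqf x hx
      rw [hq]
      by_cases hu0 : u = 0
      · have hv0 : v' ≠ 0 := fun h => hx0 (hz hu0 h)
        rw [hu0, hzero, zero_add]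
        exact mul_pos hνpos (H v' hv' hv0)
      · by_cases hv0 : v' = 0
        · rw [hv0, hzero, mul_zero, add_zero]; exact H u hu hu0
        · exact add_pos (H u hu hu0) (mul_pos hνpos (H v' hv' hv0))
    · right
      intro x hx hx0
      obtain ⟨u, v', hu, hv', hq, hz⟩ := hqf x hx
      rw [hq]
      by_cases hu0 : u = 0
      · have hv0 : v' ≠ 0 := fun h => hx0 (hz hu0 h)
        rw [hu0, hzero, zero_add]
        exact mul_neg_of_pos_of_neg hνpos (H v' hv' hv0)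
      · by_cases hv0 : v' = 0
        · rw [hv0, hzero, mul_zero, add_zero]; exact H u hu hu0
        · exact add_neg (H u hu hu0) (mul_neg_of_pos_of_neg hνpos (H v' hv' hv0))

end Final

end Pool.Agent.Lib.MP_9437d9_an
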